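import Mathlib

set_option autoImplicit false
open MeasureTheory Set Complex Filter Topology Real

namespace Pool.Agent.H.MP_f617a8_an

lemma uniqR {μ : Measure ℝ} {ξ η : ℝ → ℝ} (hξ : Measurable ξ) (hη : Measurable η)
    (e : ∀ᵐ t ∂μ, η (ξ t) = t) {u : ℝ → ℝ} (hu : Integrable u μ)
    (h : ∀ k : ℝ, ∫ t, cexp (k * ξ t * I) * u t ∂μ = 0) : u =ᵐ[μ] 0 := by
  have key : ∀ v : ℝ → ℝ, Integrable v μ → (∀ k, charFun ((μ.withDensity fun t =>
      (v t).toNNReal).map ξ) k = ∫ t, cexp (k * ξ t * I) * (max (v t) 0 : ℝ) ∂μ) ∧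
      ((μ.withDensity fun t => (v t).toNNReal).map ξ).map η =
        μ.withDensity fun t => (v t).toNNReal := fun v hv => by
    refine ⟨fun k => ?_, ?_⟩
    · rw [charFun_apply_real, integral_map hξ.aemeasurable (by fun_prop),
        integral_withDensity_eq_integral_smul₀ hv.aemeasurable.real_toNNReal]
      simp [NNReal.smul_def, mul_comm]
    · rw [Measure.map_map hη hξ, Measure.map_congr (f := η ∘ ξ) (g := id)
        ((withDensity_absolutelyContinuous _ _).ae_le e), Measure.map_id]
  have fin : ∀ v : ℝ → ℝ, Integrable v μ → IsFiniteMeasure (μ.withDensity fun t => (v t).toNNReal) :=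
    fun v hv => isFiniteMeasure_withDensity_ofReal hv.2
  have := fin u hu
  have := fin _ hu.neg
  have ib : ∀ (k : ℝ) (v : ℝ → ℝ), Integrable v μ →
      Integrable (fun t => cexp (k * ξ t * I) * (max (v t) 0 : ℝ)) μ := fun k v hv =>
    hv.pos_part.ofReal.bdd_mul (c := 1) (by fun_prop) (.of_forall fun t => by
      rw [← ofReal_mul, norm_exp_ofReal_mul_I])
  have a : (μ.withDensity fun t => (u t).toNNReal).map ξ =
      (μ.withDensity fun t => ((-u) t).toNNReal).map ξ := Measure.ext_of_charFun (funext fun k => by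
    rw [(key u hu).1, (key _ hu.neg).1, ← sub_eq_zero, ← integral_sub (ib k u hu) (ib k _ hu.neg),
      ← h k]
    refine integral_congr_ae (.of_forall fun t => ?_)
    simp only [← mul_sub, ← ofReal_sub, Pi.neg_apply, max_zero_sub_max_neg_zero_eq_self])
  have b := (key u hu).2.symm.trans ((congrArg (Measure.map η) a).trans (key _ hu.neg).2)
  filter_upwards [(withDensity_eq_iff hu.aemeasurable.real_toNNReal.coe_nnreal_ennreal
    hu.neg.aemeasurable.real_toNNReal.coe_nnreal_ennreal
    (ne_top_of_le_ne_top hu.2.ne (lintegral_mono fun t => Real.ofReal_le_enorm _))).1 b] with t ht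
  have := congrArg ENNReal.toReal ht
  simp only [ENNReal.coe_toReal, Real.coe_toNNReal', Pi.neg_apply] at this
  rw [← max_zero_sub_max_neg_zero_eq_self (u t), this, sub_self]; rfl

lemma uniq {μ : Measure ℝ} {ξ η : ℝ → ℝ} (hξ : Measurable ξ) (hη : Measurable η)
    (e : ∀ᵐ t ∂μ, η (ξ t) = t) {u : ℝ → ℂ} (hu : Integrable u μ)
    (h : ∀ k : ℝ, ∫ t, cexp (k * ξ t * I) * u t ∂μ = 0) : u =ᵐ[μ] 0 := by
  have ib : ∀ (k : ℝ) (v : ℝ → ℂ), Integrable v μ →
      Integrable (fun t => cexp (k * ξ t * I) * v t) μ := fun k v hv =>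
    hv.bdd_mul (c := 1) (by fun_prop) (.of_forall fun t => by rw [← ofReal_mul, norm_exp_ofReal_mul_I])
  have hc : Integrable (fun t => (starRingEnd ℂ) (u t)) μ := conjCLE.toContinuousLinearMap.integrable_comp hu
  have h' : ∀ k : ℝ, ∫ t, cexp (k * ξ t * I) * (starRingEnd ℂ) (u t) ∂μ = 0 := fun k => by
    have := congrArg (starRingEnd ℂ) (h (-k))
    simpa [← integral_conj, ← exp_conj] using this
  filter_upwards [uniqR hξ hη e hu.re fun k => by
      have := integral_add (ib k _ hu) (ib k _ hc)
      simp only [h, h', ← mul_add, add_conj, add_zero, ofReal_mul, mul_left_comm _ ((2 : ℝ) : ℂ),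
        integral_const_mul] at this
      simpa using this,
    uniqR hξ hη e hu.im fun k => by
      have := integral_sub (ib k _ hu) (ib k _ hc)
      simp only [h, h', ← mul_sub, sub_conj, sub_zero, ofReal_mul, ← mul_assoc, integral_mul_const,
        mul_right_comm _ ((2 : ℝ) : ℂ)] at this
      simpa using this] with t a b using Complex.ext a b

lemma sinc {h : ℝ → ℂ} (hh : MemLp h 2 (volume.restrict (Ioo 0 π)))
    (h0 : ∀ n : ℕ, 1 ≤ n → ∫ t in Ioo 0 π, (Real.sin (n * t) : ℂ) * h t = 0) :
    h =ᵐ[volume.restrict (Ioo 0 π)] 0 := by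
  have hz : ∀ n : ℤ, ∫ t in Ioo 0 π, (Real.sin (n * t) : ℂ) * h t = 0 := fun n => by
    obtain ⟨n, rfl | rfl⟩ := n.eq_nat_or_neg <;> rcases n.eq_zero_or_pos with rfl | hn
    · simp
    · simpa using h0 n hn
    · simp
    · simpa [integral_neg] using h0 n hn
  set g := (Ioo 0 π).indicator h with hg
  have m1 : MemLp g 2 volume := (memLp_indicator_iff_restrict measurableSet_Ioo).2 hh
  have m2 : MemLp (fun x => g (-x)) 2 volume := m1.comp_measurePreserving (Measure.measurePreserving_neg _)
  have lt : -π < π := by linarith [pi_pos]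
  have ii : ∀ {v : ℝ → ℂ}, MemLp v 2 volume → ∀ {φ : ℝ → ℂ}, Continuous φ →
      IntervalIntegrable (fun x => φ x * v x) volume (-π) π := fun hv φ hφ =>
    ((intervalIntegrable_iff_integrableOn_Ioc_of_le lt.le).2
      ((hv.restrict _).integrable one_le_two)).continuousOn_mul hφ.continuousOn
  have sb : Ioo 0 π ⊆ Ioc (-π) π := fun x hx => ⟨by linarith [hx.1, pi_pos], hx.2.le⟩
  have P := hasSum_sq_fourierCoeffOn lt ((m1.sub m2).restrict _)
  have z : ∀ n, fourierCoeffOn lt (g - fun x => g (-x)) n = 0 := fun n => by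
    rw [fourierCoeffOn_eq_integral]
    simp only [fourier_coe_apply, Pi.sub_apply, smul_eq_mul, mul_sub]
    set φ : ℝ → ℂ := fun x => cexp (2 * π * I * (-n : ℤ) * x / (π - -π : ℝ)) with hφ
    have c : Continuous φ := by fun_prop
    have r := intervalIntegral.integral_comp_neg (a := -π) (b := π) fun x => φ (-x) * g x
    simp only [neg_neg] at r
    rw [intervalIntegral.integral_sub (ii m1 c) (ii m2 c), r,
      ← intervalIntegral.integral_sub (ii m1 c) (ii m1 (φ := fun x => φ (-x)) (c.comp continuous_neg)),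
      intervalIntegral.integral_of_le lt.le]
    have : ∀ x, φ x * g x - φ (-x) * g x =
        (Ioo 0 π).indicator (fun t => -2 * I * ((Real.sin (n * t) : ℂ) * h t)) x := fun x => by
      have p : (π : ℂ) ≠ 0 := ofReal_ne_zero.2 pi_ne_zero
      have e1 : ∀ y : ℝ, φ y = cexp (-(n * y) * I) := fun y => by
        simp only [hφ]; congr 1; push_cast; field_simp; ring
      by_cases hx : x ∈ Ioo 0 π
      · simp only [hg, indicator_of_mem hx, e1, ofReal_sin, Complex.sin]
        push_cast
        rw [show -(n * -(x : ℂ)) * I = n * x * I by ring]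
        linear_combination (cexp (-(n * x) * I) - cexp (n * x * I)) * h x * I_mul_I
      · simp [hg, indicator_of_notMem hx]
    simp only [this]
    rw [integral_indicator measurableSet_Ioo, Measure.restrict_restrict measurableSet_Ioo,
      inter_eq_left.2 sb, integral_const_mul, hz]
    simp
  simp only [z, norm_zero, ne_eq, OfNat.ofNat_ne_zero, not_false_eq_true, zero_pow] at P
  have Q := (smul_eq_zero.1 (P.unique hasSum_zero)).resolve_left (by simp [pi_ne_zero])
  rw [intervalIntegral.integral_of_le lt.le, integral_eq_zero_iff_of_nonneg (fun _ => by positivity)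
    (((m1.sub m2).restrict _).integrable_norm_pow two_ne_zero)] at Q
  filter_upwards [ae_restrict_mem measurableSet_Ioo, ae_mono (Measure.restrict_mono_set _ sb) Q] with x hx hq
  have : -x ∉ Ioo 0 π := fun a => by linarith [a.1, hx.1]
  simpa [hg, indicator_of_mem hx, indicator_of_notMem this] using hq

noncomputable def ξ (t : ℝ) : ℝ := Real.log (Real.sin t / (1 - Real.cos t))

noncomputable def F (k : ℝ) (z : ℂ) : ℂ := cexp (k * Complex.log ((1 + z) / (1 - z)) * I)

lemma F_le (k : ℝ) (z : ℂ) : ‖F k z‖ ≤ Real.exp (|k| * π) := by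
  rw [F, norm_exp]
  refine Real.exp_le_exp.2 ((le_abs_self _).trans ?_)
  simp only [mul_re, I_re, mul_zero, mul_im, ofReal_re, ofReal_im, zero_mul, add_zero, I_im,
    mul_one, zero_sub, abs_neg, abs_mul, log_im]
  gcongr; exact abs_arg_le_pi _

lemma F_diff (k : ℝ) {z : ℂ} (h1 : z ≠ 1) (h : ‖z‖ < 1 ∨ z.im ≠ 0) : DifferentiableAt ℂ (F k) z := by
  have h2 : 1 - z ≠ 0 := sub_ne_zero.2 h1.symm
  have n0 := normSq_pos.2 h2
  refine ((((show DifferentiableAt ℂ (fun z => (1 + z) / (1 - z)) z by fun_prop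
    (disch := exact h2)).clog (h.imp (fun h => ?_) fun h => ?_)).const_mul _).mul_const _).cexp
  · rw [div_re, ← add_div]
    refine div_pos ?_ n0
    have := (sq_lt_one_iff₀ (norm_nonneg z)).2 h
    rw [Complex.sq_norm, normSq_apply] at this
    simp; linarith
  · rw [div_im, ← sub_div]
    refine div_ne_zero (fun a => h ?_) n0.ne'
    simp at a; linarith

lemma F_bd (k : ℝ) {t : ℝ} (ht : t ∈ Ioo 0 π) (s : ℝ) (hs : s = 1 ∨ s = -1) :
    F k (cexp (s * t * I)) = cexp (k * ξ t * I) * Real.exp (-(s * k * π / 2)) := by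
  have s0 := Real.sin_pos_of_mem_Ioo ht
  have c1 : 0 < 1 - Real.cos t := by nlinarith [Real.sin_sq_add_cos_sq t, Real.cos_le_one t]
  have c2 : (1 : ℂ) - Real.cos t ≠ 0 := by exact_mod_cast c1.ne'
  have e : cexp (s * t * I) = Real.cos t + s * Real.sin t * I := by
    rw [← ofReal_mul, exp_mul_I]; rcases hs with rfl | rfl <;> simp
  have n1 : 1 - cexp (s * t * I) ≠ 0 := fun a => by
    have := congrArg re a
    simp [e, -ofReal_cos, -ofReal_sin] at this; linarith
  have e2 : (1 + cexp (s * t * I)) / (1 - cexp (s * t * I)) =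
      ((Real.sin t / (1 - Real.cos t) : ℝ) : ℂ) * (s * I) := by
    have q : (Real.sin t : ℂ) ^ 2 + (Real.cos t : ℂ) ^ 2 = 1 := by
      exact_mod_cast Real.sin_sq_add_cos_sq t
    have s2 : (s : ℂ) ^ 2 = 1 := by rcases hs with rfl | rfl <;> simp
    rw [div_eq_iff n1, e, ofReal_div, ofReal_sub, ofReal_one]
    field_simp
    linear_combination (-1) * q + (Real.sin t : ℂ) ^ 2 * s ^ 2 * I_mul_I - (Real.sin t : ℂ) ^ 2 * s2
  have l : Complex.log (s * I) = s * (π / 2 * I) := by
    rcases hs with rfl | rfl <;> simp [log_I, log_neg_I]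
  rw [F, e2, log_ofReal_mul (by positivity) (by rcases hs with rfl | rfl <;> simp), l, ofReal_exp,
    ← Complex.exp_add, ξ]
  congr 1; push_cast
  linear_combination (k * s * π / 2) * I_mul_I

lemma cauchy (k : ℝ) (n : ℕ) : ∫ t in Ioo 0 π, (F k (cexp ((1 : ℝ) * t * I)) * cexp ((n + 1) * t * I) +
    F k (cexp ((-1 : ℝ) * t * I)) * cexp (-((n + 1) * t * I))) = 0 := by
  have a : ∀ r ∈ Ioo (0 : ℝ) 1, ∫ t in Ioo 0 π, (F k (r * cexp ((1 : ℝ) * t * I)) *
      cexp ((n + 1) * t * I) + F k (r * cexp ((-1 : ℝ) * t * I)) * cexp (-((n + 1) * t * I))) = 0 := by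
    intro r hr
    have d : ∀ z ∈ Metric.closedBall (0 : ℂ) r, DifferentiableAt ℂ (F k) z := fun z hz => by
      have : ‖z‖ < 1 := (mem_closedBall_zero_iff.1 hz).trans_lt hr.2
      exact F_diff k (by rintro rfl; simp at this) (.inl this)
    have c := circleIntegral_eq_zero_of_differentiable_on_off_countable hr.1.le countable_empty
      (f := fun z => F k z * z ^ n) (c := 0)
      (fun z hz => ((d z hz).mul (by fun_prop)).continuousAt.continuousWithinAt)
      fun z hz => (d z (Metric.ball_subset_closedBall hz.1)).mul (by fun_prop)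
    set g : ℝ → ℂ := fun t => F k (r * cexp (t * I)) * cexp ((n + 1) * t * I) with hg
    have cg : Continuous g := (continuous_iff_continuousAt.2 fun t => ContinuousAt.comp
      (f := fun t : ℝ => r * cexp (t * I)) (d _ (by simp [abs_of_pos hr.1])).continuousAt
        (by fun_prop)).mul (by fun_prop)
    have e : ∀ t : ℝ, deriv (circleMap 0 r) t • (F k (circleMap 0 r t) * circleMap 0 r t ^ n) =
        I * r ^ (n + 1) * g t := fun t => by
      simp only [deriv_circleMap, circleMap_zero, hg, smul_eq_mul, mul_pow, ← Complex.exp_nat_mul,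
        add_mul, Complex.exp_add, one_mul, mul_assoc, pow_succ]
      ring
    simp only [circleIntegral, e, intervalIntegral.integral_const_mul] at c
    have c' := (mul_eq_zero.1 c).resolve_left (by simp [hr.1.ne'])
    have r2 := intervalIntegral.integral_comp_sub_left (a := 0) (b := π) g (2 * π)
    rw [sub_zero, show 2 * π - π = π by ring] at r2
    rw [← intervalIntegral.integral_add_adjacent_intervals (b := π) (cg.intervalIntegrable _ _)
      (cg.intervalIntegrable _ _), ← r2, ← intervalIntegral.integral_add (cg.intervalIntegrable _ _)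
      ((by fun_prop : Continuous fun x => g (2 * π - x)).intervalIntegrable _ _), intervalIntegral.integral_of_le pi_pos.le,
      integral_Ioc_eq_integral_Ioo] at c'
    rw [← c']
    refine integral_congr_ae (.of_forall fun t => ?_)
    simp only [hg]; push_cast
    rw [show (2 * π - t) * I = -1 * t * I + 2 * π * I by ring, Complex.exp_periodic,
      show (n + 1) * (2 * π - t) * I = -((n + 1) * t * I) + (n + 1 : ℕ) * (2 * π * I) by
        push_cast; ring, Complex.exp_periodic.nat_mul, one_mul]
  have ev : ∀ᶠ r in 𝓝[<] (1 : ℝ), r ∈ Ioo (0 : ℝ) 1 := Ioo_mem_nhdsLT one_pos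
  have mF : Measurable (F k) := by unfold F; fun_prop
  refine tendsto_nhds_unique (tendsto_integral_filter_of_dominated_convergence (l := 𝓝[<] (1 : ℝ))
    (F := fun (r : ℝ) (t : ℝ) => F k (r * cexp ((1 : ℝ) * t * I)) *
      cexp ((n + 1) * t * I) + F k (r * cexp ((-1 : ℝ) * t * I)) * cexp (-((n + 1) * t * I)))
    (fun _ => Real.exp (|k| * π) + Real.exp (|k| * π))
    (.of_forall fun r => Measurable.aestronglyMeasurable (by fun_prop))
    (.of_forall fun r => .of_forall fun t => (norm_add_le _ _).trans (add_le_add ?_ ?_))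
    (integrable_const _) ?_) (tendsto_const_nhds.congr' (ev.mono fun r hr => (a r hr).symm))
  · simpa [norm_exp] using F_le k _
  · simpa [norm_exp] using F_le k _
  · filter_upwards [ae_restrict_mem measurableSet_Ioo] with t ht
    have s0 := Real.sin_pos_of_mem_Ioo ht
    have b : ∀ s : ℝ, s = 1 ∨ s = -1 → Tendsto (fun r : ℝ => F k (r * cexp (s * t * I))) (𝓝[<] 1)
        (𝓝 (F k (cexp (s * t * I)))) := fun s hs => by
      have i0 : (cexp (s * t * I)).im ≠ 0 := by
        rw [← ofReal_mul, exp_ofReal_mul_I_im]; rcases hs with rfl | rfl <;> simp [s0.ne']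
      refine (F_diff k (fun a => i0 (by simp [a])) (.inr i0)).continuousAt.tendsto.comp
        (tendsto_nhdsWithin_of_tendsto_nhds (Continuous.tendsto' (by fun_prop) _ _ (by simp)))
    exact ((b 1 (.inl rfl)).mul_const _).add ((b (-1) (.inr rfl)).mul_const _)

end Pool.Agent.H.MP_f617a8_an
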